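import Pool.Agent.W761.CP.Defs
import Pool.Agent.Helper209.CX.K01
import Pool.Agent.Helper209.CX.K02
import Pool.Agent.Helper209.CX.K03

/-! CP-FBL (helper168, for helper761): integrable potentials are form bounded -/

set_option autoImplicit false

open MeasureTheory
open scoped ENNReal FourierTransform

namespace Pool.Agent.W168.CP

open Pool.Agent.Helper209.CX (Ed L2d InH1)
open Pool.Agent.W761.CP

/-- the norm of an `L²` function -/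
theorem nsq {d : ℕ} (f : L2d d) : Integrable (fun x => ‖f x‖ ^ 2) volume ∧
    ‖f‖ ^ 2 = ∫ x, ‖f x‖ ^ 2 := by
  refine ⟨(memLp_two_iff_integrable_sq_norm (Lp.memLp f).1).1 (Lp.memLp f), ?_⟩
  have e2 : inner ℂ f f = ∫ x, inner ℂ (f x) (f x) := L2.inner_def f f
  have e3 : ∫ x, inner ℂ (f x) (f x) = ∫ x, ((‖f x‖ ^ 2 : ℝ) : ℂ) := by
    refine integral_congr_ae ?_
    refine Filter.Eventually.of_forall fun x => ?_
    show inner ℂ (f x) (f x) = _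
    rw [inner_self_eq_norm_sq_to_K]
    push_cast
    rfl
  rw [e3, integral_complex_ofReal, inner_self_eq_norm_sq_to_K] at e2
  have e4 : ((‖f‖ ^ 2 : ℝ) : ℂ) = ((∫ x, ‖f x‖ ^ 2 : ℝ) : ℂ) := by
    rw [← e2]
    push_cast
    rfl
  exact Complex.ofReal_injective e4

/-- the energy -/
theorem energy (hft : S_FT) {d : ℕ} (u : L2d d) (g : Fin d → L2d d) (hg : IsGrad u g) :
    InH1 u ∧ ∫ ξ : Ed d, (1 + ‖ξ‖ ^ 2) * ‖(𝓕 u : L2d d) ξ‖ ^ 2 ≤ ‖u‖ ^ 2 + ∑ k, ‖g k‖ ^ 2 := by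
  have h1 := (hft d u g).1 hg
  have hk : ∀ k : Fin d, (fun ξ : Ed d => ‖(𝓕 (g k) : L2d d) ξ‖ ^ 2) =ᵐ[volume]
      fun ξ => (2 * Real.pi) ^ 2 * ((ξ k) ^ 2 * ‖(𝓕 u : L2d d) ξ‖ ^ 2) := by
    intro k
    filter_upwards [h1 k] with ξ hξ
    rw [hξ, norm_mul, norm_mul, norm_mul, norm_mul, Complex.norm_I, Complex.norm_real, Complex.norm_real,
      Complex.norm_ofNat, Real.norm_of_nonneg Real.pi_pos.le, Real.norm_eq_abs]
    rw [mul_pow, mul_pow, sq_abs]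
    ring
  have hki : ∀ k : Fin d, Integrable (fun ξ : Ed d => (ξ k) ^ 2 * ‖(𝓕 u : L2d d) ξ‖ ^ 2) volume ∧
      (2 * Real.pi) ^ 2 * ∫ ξ : Ed d, (ξ k) ^ 2 * ‖(𝓕 u : L2d d) ξ‖ ^ 2 = ‖g k‖ ^ 2 := by
    intro k
    obtain ⟨i1, i2⟩ := nsq (𝓕 (g k) : L2d d)
    have i3 := i1.congr (hk k)
    have hpi : ((2 * Real.pi) ^ 2 : ℝ) ≠ 0 := by positivity
    constructor
    · have i4 := i3.const_mul (((2 * Real.pi) ^ 2)⁻¹)
      refine i4.congr (Filter.Eventually.of_forall fun ξ => ?_)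
      show ((2 * Real.pi) ^ 2)⁻¹ * ((2 * Real.pi) ^ 2 * ((ξ k) ^ 2 * ‖(𝓕 u : L2d d) ξ‖ ^ 2)) = _
      rw [← mul_assoc, inv_mul_cancel₀ hpi, one_mul]
    · rw [← integral_const_mul, ← integral_congr_ae (hk k), ← i2, Lp.norm_fourier_eq]
  obtain ⟨j1, j2⟩ := nsq (𝓕 u : L2d d)
  rw [Lp.norm_fourier_eq] at j2
  have hsum : (fun ξ : Ed d => ‖ξ‖ ^ 2 * ‖(𝓕 u : L2d d) ξ‖ ^ 2) =
      fun ξ => ∑ k, (ξ k) ^ 2 * ‖(𝓕 u : L2d d) ξ‖ ^ 2 := by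
    funext ξ
    rw [EuclideanSpace.real_norm_sq_eq, Finset.sum_mul]
  have hsi : Integrable (fun ξ : Ed d => ‖ξ‖ ^ 2 * ‖(𝓕 u : L2d d) ξ‖ ^ 2) volume := by
    rw [hsum]
    exact integrable_finsetSum _ fun k _ => (hki k).1
  constructor
  · unfold Pool.Agent.Helper209.CX.InH1
    rw [memLp_two_iff_integrable_sq_norm]
    · refine hsi.congr (Filter.Eventually.of_forall fun ξ => ?_)
      show ‖ξ‖ ^ 2 * ‖(𝓕 u : L2d d) ξ‖ ^ 2 = ‖(‖ξ‖ : ℂ) * (𝓕 u : L2d d) ξ‖ ^ 2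
      rw [norm_mul, Complex.norm_real, norm_norm, mul_pow]
    · have hm : Continuous (fun ξ : Ed d => ((‖ξ‖ : ℝ) : ℂ)) := by fun_prop
      exact hm.aestronglyMeasurable.mul (Lp.memLp (𝓕 u : L2d d)).1
  · have e1 : ∫ ξ : Ed d, (1 + ‖ξ‖ ^ 2) * ‖(𝓕 u : L2d d) ξ‖ ^ 2 =
        ‖u‖ ^ 2 + ∑ k, ∫ ξ : Ed d, (ξ k) ^ 2 * ‖(𝓕 u : L2d d) ξ‖ ^ 2 := by
      have e2 : (fun ξ : Ed d => (1 + ‖ξ‖ ^ 2) * ‖(𝓕 u : L2d d) ξ‖ ^ 2) =
          fun ξ => ‖(𝓕 u : L2d d) ξ‖ ^ 2 + ‖ξ‖ ^ 2 * ‖(𝓕 u : L2d d) ξ‖ ^ 2 := by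
        funext ξ
        ring
      rw [e2, integral_add j1 hsi, ← j2, hsum, integral_finsetSum _ fun k _ => (hki k).1]
    rw [e1]
    apply add_le_add le_rfl
    apply Finset.sum_le_sum
    intro k _
    rw [← (hki k).2]
    have hnn : 0 ≤ ∫ ξ : Ed d, (ξ k) ^ 2 * ‖(𝓕 u : L2d d) ξ‖ ^ 2 :=
      integral_nonneg fun ξ => by positivity
    have hpi : (1 : ℝ) ≤ (2 * Real.pi) ^ 2 := by
      have := Real.pi_gt_three
      nlinarith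
    nlinarith

theorem fbl : S_FT → S_FBL := by
  intro hft d V hd hVm hV
  refine ⟨hVm, ?_⟩
  obtain ⟨p, hp⟩ : ∃ p : ℝ, p = (d : ℝ) + 1 := ⟨_, rfl⟩
  rw [← hp] at hV
  have hd1 : (1 : ℝ) ≤ d := by exact_mod_cast hd
  have hp1 : 1 < p := by linarith
  have hp0 : 0 < p := by linarith
  have hpd : (d : ℝ) / 2 < p := by linarith
  obtain ⟨Q, hQ⟩ : ∃ Q : Ed d → ℝ, Q = fun x => ‖V x‖ + 1 / (1 + ‖x‖ ^ 2) := ⟨_, rfl⟩
  have hQm : Measurable Q := by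
    rw [hQ]
    exact hVm.norm.add (by fun_prop)
  have hQ0 : ∀ x, 0 < Q x := by
    intro x
    rw [hQ]
    positivity
  have hpne : ENNReal.ofReal p ≠ 0 := by
    rw [Ne, ENNReal.ofReal_eq_zero]
    linarith
  have hG : MemLp (fun x : Ed d => 1 / (1 + ‖x‖ ^ 2)) (ENNReal.ofReal p) volume := by
    have hm : AEStronglyMeasurable (fun x : Ed d => 1 / (1 + ‖x‖ ^ 2)) volume := by
      have : Measurable (fun x : Ed d => 1 / (1 + ‖x‖ ^ 2)) := by fun_prop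
      exact this.aestronglyMeasurable
    rw [← integrable_norm_rpow_iff hm hpne ENNReal.ofReal_ne_top, ENNReal.toReal_ofReal hp0.le]
    refine (Pool.Agent.Helper209.CX.K03.d3f_Gint d p hpd).congr
      (Filter.Eventually.of_forall fun x => ?_)
    show (1 / (1 + ‖x‖ ^ 2)) ^ p = ‖1 / (1 + ‖x‖ ^ 2)‖ ^ p
    rw [Real.norm_of_nonneg (by positivity)]
  have hQL : MemLp Q (ENNReal.ofReal p) volume := by
    rw [hQ]
    exact hV.norm.add hG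
  have hQi : Integrable (fun x => Q x ^ p) volume := by
    have h1 := (integrable_norm_rpow_iff hQL.1 hpne ENNReal.ofReal_ne_top).2 hQL
    rw [ENNReal.toReal_ofReal hp0.le] at h1
    refine h1.congr (Filter.Eventually.of_forall fun x => ?_)
    show ‖Q x‖ ^ p = Q x ^ p
    rw [Real.norm_of_nonneg (hQ0 x).le]
  obtain ⟨C, hC, hform⟩ := Pool.Agent.Helper209.CX.K03.d3_form
    (Pool.Agent.Helper209.CX.K02.d2_cw Pool.Agent.Helper209.CX.K01.d1_fourier)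
    d hd p hp1 hpd Q hQm hQ0 hQi
  refine ⟨C, hC.le, ?_⟩
  intro u g hg
  obtain ⟨hu, hen⟩ := energy hft u g hg
  obtain ⟨f1, f2⟩ := hform u hu
  have hle : ∀ x, ‖V x‖ * ‖u x‖ ^ 2 ≤ Q x * ‖u x‖ ^ 2 := by
    intro x
    apply mul_le_mul_of_nonneg_right _ (sq_nonneg _)
    rw [hQ]
    have : (0 : ℝ) ≤ 1 / (1 + ‖x‖ ^ 2) := by positivity
    show ‖V x‖ ≤ ‖V x‖ + 1 / (1 + ‖x‖ ^ 2)
    linarith
  have hi : Integrable (fun x => ‖V x‖ * ‖u x‖ ^ 2) volume := by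
    refine f1.mono' (hVm.norm.aestronglyMeasurable.mul ((Lp.memLp u).1.norm.pow 2))
      (Filter.Eventually.of_forall fun x => ?_)
    rw [Real.norm_of_nonneg (by positivity)]
    exact hle x
  refine ⟨hi, ?_⟩
  calc ∫ x, ‖V x‖ * ‖u x‖ ^ 2 ≤ ∫ x, Q x * ‖u x‖ ^ 2 := integral_mono hi f1 hle
    _ ≤ C * ∫ ξ : Ed d, (1 + ‖ξ‖ ^ 2) * ‖(𝓕 u : L2d d) ξ‖ ^ 2 := f2
    _ ≤ C * (‖u‖ ^ 2 + ∑ k, ‖g k‖ ^ 2) := mul_le_mul_of_nonneg_left hen hC.le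

end Pool.Agent.W168.CP
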